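import Mathlib

/-!
# MP_e752eb_gt: every Čech-complete space is strongly Telgársky pseudocomplete
-/

set_option autoImplicit false

universe u

namespace Pool.Agent.Results.MP_e752eb_gt.CechStrong

open Set Topology Filter TopologicalSpace

/-- `X` is strongly Telgársky pseudocomplete: it has a base of nonempty open sets in which every
nested sequence has nonempty intersection. -/
def StronglyTelgarsky (X : Type u) [TopologicalSpace X] : Prop :=
  ∃ ℬ : Set (Set X), IsTopologicalBasis ℬ ∧ (∀ B ∈ ℬ, IsOpen B ∧ B.Nonempty) ∧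
    ∀ B : ℕ → Set X, (∀ n, B n ∈ ℬ) → (∀ n, closure (B (n + 1)) ⊆ interior (B n)) →
      (⋂ n, B n).Nonempty

/-- A sequence of notions of smallness: each point has small neighbourhoods, small sets have small
closures and subsets, and filters containing small sets of all levels have cluster points. -/
structure Small {Y : Type u} [TopologicalSpace Y] (S : ℕ → Set (Set Y)) : Prop where
  nhd : ∀ n y, ∃ U, IsOpen U ∧ y ∈ U ∧ U ∈ S n
  mono : ∀ n U V, U ⊆ closure V → V ∈ S n → U ∈ S n
  cluster : ∀ F : Filter Y, F.NeBot → (∀ n, ∃ U ∈ F, U ∈ S n) → ∃ y, ClusterPt y F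

/-! ### Minimal indices -/

section minimal

variable {Y : Type u} [LinearOrder Y] [WellFoundedLT Y]

/-- the minimal index of a neighbourhood containing the point -/
noncomputable def al (N : Y → Set Y) (h : ∀ y, y ∈ N y) (y : Y) : Y :=
  (wellFounded_lt : WellFounded ((· < ·) : Y → Y → Prop)).min {a | y ∈ N a} ⟨y, h y⟩

lemma al_mem (N : Y → Set Y) (h : ∀ y, y ∈ N y) (y : Y) : y ∈ N (al N h y) :=
  WellFounded.min_mem (wellFounded_lt : WellFounded ((· < ·) : Y → Y → Prop)) {a | y ∈ N a}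
    ⟨y, h y⟩

lemma al_le (N : Y → Set Y) (h : ∀ y, y ∈ N y) (y a : Y) (ha : y ∈ N a) : al N h y ≤ a := by
  have ha' : a ∈ {a | y ∈ N a} := ha
  exact not_lt.1 (WellFounded.not_lt_min wellFounded_lt _ ha')

/-- a function with values in a well-order attains its minimum on a nonempty set -/
lemma exists_min {α : Type*} (f : α → Y) (s : Set α) (hs : s.Nonempty) :
    ∃ x ∈ s, ∀ y ∈ s, f x ≤ f y := by
  have hne : (f '' s).Nonempty := hs.image f
  obtain ⟨x, hx, hxe⟩ :=
    WellFounded.min_mem (wellFounded_lt : WellFounded ((· < ·) : Y → Y → Prop)) (f '' s) hne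
  refine ⟨x, hx, fun y hy => ?_⟩
  have hy' : f y ∈ f '' s := ⟨y, hy, rfl⟩
  rw [hxe]
  exact not_lt.1 (WellFounded.not_lt_min wellFounded_lt _ hy')

end minimal

/-! ### The good π-base -/

lemma goodPi (Y : Type u) [TopologicalSpace Y] (S : ℕ → Set (Set Y)) (hS : Small S) :
    ∃ 𝒟 : Set (Set Y), (∀ D ∈ 𝒟, D.Nonempty) ∧
      (∀ O : Set Y, IsOpen O → O.Nonempty → ∃ D ∈ 𝒟, D ⊆ O ∧ IsOpen D) ∧
      ∀ D : ℕ → Set Y, (∀ n, D n ∈ 𝒟) → Antitone D → (⋂ n, closure (D n)).Nonempty := by
  classical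
  obtain ⟨_, _⟩ := exists_wellFoundedLT Y
  choose N hNo hNmem hNS using hS.nhd
  let α : ℕ → Y → Y := fun n => al (N n) (hNmem n)
  let P : ℕ → Y → Set Y := fun n a => {y | α n y = a}
  let V : ℕ → Y → Set Y := fun n a => interior (P n a)
  have hVN : ∀ n a, V n a ⊆ N n a := by
    intro n a y hy
    have h1 : α n y = a := (interior_subset : interior (P n a) ⊆ P n a) hy
    rw [← h1]
    exact al_mem _ _ _
  have hVα : ∀ n a y, y ∈ V n a → α n y = a := fun n a y hy =>
    (interior_subset : interior (P n a) ⊆ P n a) hy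
  have hdense : ∀ (n : ℕ) (O : Set Y), IsOpen O → O.Nonempty → ∃ a, (O ∩ V n a).Nonempty := by
    intro n O hO hne
    obtain ⟨y0, hy0, hmin⟩ := exists_min (α n) O hne
    refine ⟨α n y0, y0, hy0, ?_⟩
    have hsub : O ∩ N n (α n y0) ⊆ P n (α n y0) := by
      rintro y ⟨hy, hyN⟩
      exact le_antisymm (al_le _ _ _ _ hyN) (hmin y hy)
    exact interior_maximal hsub (hO.inter (hNo _ _)) ⟨hy0, al_mem _ _ _⟩
  let Vt : (ℕ → Y) → ℕ → Set Y := fun t k => {y | ∀ i < k, y ∈ V i (t i)}
  have hVtopen : ∀ t k, IsOpen (Vt t k) := by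
    intro t k
    have : Vt t k = ⋂ i ∈ {i | i < k}, V i (t i) := by
      ext y
      simp [Vt]
    rw [this]
    exact (finite_lt_nat k).isOpen_biInter fun i _ => isOpen_interior
  have hVts : ∀ t k, Vt t (k + 1) = Vt t k ∩ V k (t k) := by
    intro t k
    ext y
    constructor
    · intro h
      exact ⟨fun i hi => h i (by omega), h k (by omega)⟩
    · rintro ⟨h1, h2⟩ i hi
      rcases Nat.lt_succ_iff_lt_or_eq.1 hi with h | rfl
      · exact h1 i h
      · exact h2
  have hVtanti : ∀ t, Antitone (Vt t) := fun t k l hkl y hy i hi => hy i (by omega)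
  refine ⟨{D | ∃ t : ℕ → Y, (∀ k, (D ∩ Vt t k).Nonempty) ∧
    ∀ k, {a | (D ∩ Vt t k ∩ V k a).Nonempty}.Finite}, ?_, ?_, ?_⟩
  · rintro D ⟨t, ht, -⟩
    exact (ht 0).mono inter_subset_left
  · intro O hO hne
    -- a branch through `O`
    have hpick : ∀ (k : ℕ) (W : Set Y), ∃ a, IsOpen W ∧ W.Nonempty → (W ∩ V k a).Nonempty := by
      intro k W
      by_cases h : IsOpen W ∧ W.Nonempty
      · obtain ⟨a, ha⟩ := hdense k W h.1 h.2
        exact ⟨a, fun _ => ha⟩
      · obtain ⟨y, -⟩ := hne
        exact ⟨y, fun h' => (h h').elim⟩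
    choose pick hpick using hpick
    let st : ℕ → Set Y := fun k => Nat.rec O (fun k W => W ∩ V k (pick k W)) k
    let t : ℕ → Y := fun k => pick k (st k)
    have hst : ∀ k, st (k + 1) = st k ∩ V k (t k) := fun k => rfl
    have hstp : ∀ k, IsOpen (st k) ∧ (st k).Nonempty := by
      intro k
      induction k with
      | zero => exact ⟨hO, hne⟩
      | succ k ih =>
        rw [hst]
        exact ⟨ih.1.inter isOpen_interior, hpick k _ ih⟩
    have hstV : ∀ k, st k = O ∩ Vt t k := by
      intro k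
      induction k with
      | zero =>
        change O = _
        ext y
        simp [Vt]
      | succ k ih => rw [hst, ih, hVts, inter_assoc]
    have hOne : ∀ k, (O ∩ Vt t k).Nonempty := fun k => by
      rw [← hstV]
      exact (hstp k).2
    by_cases hside : ∀ l, ∃ k, l ≤ k ∧ ∃ a, a ≠ t k ∧ (O ∩ Vt t k ∩ V k a).Nonempty
    · -- side pieces infinitely often
      have hside' : ∀ k, ∃ a, (∃ a, a ≠ t k ∧ (O ∩ Vt t k ∩ V k a).Nonempty) →
          a ≠ t k ∧ (O ∩ Vt t k ∩ V k a).Nonempty := by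
        intro k
        by_cases h : ∃ a, a ≠ t k ∧ (O ∩ Vt t k ∩ V k a).Nonempty
        · obtain ⟨a, ha⟩ := h
          exact ⟨a, fun _ => ha⟩
        · exact ⟨t k, fun h' => (h h').elim⟩
      choose b hb using hside'
      let A : Set ℕ := {k | ∃ a, a ≠ t k ∧ (O ∩ Vt t k ∩ V k a).Nonempty}
      let D : Set Y := ⋃ k ∈ A, O ∩ Vt t k ∩ V k (b k)
      have hDmem : ∀ y, y ∈ D ↔ ∃ k ∈ A, y ∈ O ∩ Vt t k ∩ V k (b k) := fun y => by
        simp only [D, mem_iUnion, exists_prop]
      refine ⟨D, ⟨t, ?_, ?_⟩, ?_, ?_⟩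
      · intro k
        obtain ⟨l, hl, hlA⟩ := hside k
        obtain ⟨y, hy⟩ := (hb l hlA).2
        exact ⟨y, (hDmem y).2 ⟨l, hlA, hy⟩, hVtanti t hl hy.1.2⟩
      · intro k
        refine (Set.toFinite ({b k, t k} : Set Y)).subset ?_
        rintro a ⟨y, ⟨hyD, hyV⟩, hya⟩
        obtain ⟨l, hlA, ⟨hyO, hyl⟩, hyb⟩ := (hDmem y).1 hyD
        have hαk := hVα k a y hya
        rcases lt_trichotomy l k with h | h | h
        · -- impossible
          have h1 := hVα l _ y (hyV l h)
          have h2 := hVα l _ y hyb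
          exact ((hb l hlA).1 (h2.symm.trans h1)).elim
        · subst h
          left
          exact hαk.symm.trans (hVα l _ y hyb)
        · right
          exact hαk.symm.trans (hVα k _ y (hyl k h))
      · intro y hy
        obtain ⟨l, -, hy'⟩ := (hDmem y).1 hy
        exact hy'.1.1
      · exact isOpen_biUnion fun k _ => (hO.inter (hVtopen t k)).inter isOpen_interior
    · push Not at hside
      obtain ⟨l, hl⟩ := hside
      refine ⟨O ∩ Vt t l, ⟨t, ?_, ?_⟩, inter_subset_left, hO.inter (hVtopen t l)⟩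
      · intro k
        obtain ⟨y, hyO, hy⟩ := hOne (max k l)
        exact ⟨y, ⟨hyO, hVtanti t (le_max_right k l) hy⟩, hVtanti t (le_max_left k l) hy⟩
      · intro k
        refine (Set.toFinite ({t k} : Set Y)).subset ?_
        rintro a ⟨y, ⟨⟨hyO, hyl⟩, hyk⟩, hya⟩
        by_contra hne'
        have hak := hVα k a y hya
        rcases lt_or_ge k l with h | h
        · exact hne' (hak.symm.trans (hVα k _ y (hyl k h)))
        · have := hl k h a hne'
          exact this.subset ⟨⟨hyO, hyk⟩, hya⟩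
  · -- nested sequences
    intro D hD hanti
    choose t ht1 ht2 using hD
    let 𝒰 : Ultrafilter ℕ := hyperfilter ℕ
    obtain ⟨y00, -⟩ := ht1 0 0
    have hT : ∀ k, ∃ a, (∃ a, ∀ᶠ j in (𝒰 : Filter ℕ), t j k = a) →
        ∀ᶠ j in (𝒰 : Filter ℕ), t j k = a := by
      intro k
      by_cases h : ∃ a, ∀ᶠ j in (𝒰 : Filter ℕ), t j k = a
      · obtain ⟨a, ha⟩ := h
        exact ⟨a, fun _ => ha⟩
      · exact ⟨y00, fun h' => (h h').elim⟩
    choose T hT using hT
    have hcongr : ∀ (s s' : ℕ → Y) (k : ℕ), (∀ i < k, s i = s' i) → Vt s k = Vt s' k := by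
      intro s s' k h
      ext y
      constructor
      · intro hy i hi
        rw [← h i hi]
        exact hy i hi
      · intro hy i hi
        rw [h i hi]
        exact hy i hi
    have hmain : ∀ k, ∀ᶠ j in (𝒰 : Filter ℕ), ∀ i < k, t j i = T i := by
      intro k
      induction k with
      | zero => exact Eventually.of_forall fun j i hi => absurd hi (Nat.not_lt_zero i)
      | succ k ih =>
        obtain ⟨j0, hj0⟩ := ih.exists
        have hge : ∀ᶠ j in (𝒰 : Filter ℕ), j0 ≤ j :=
          Nat.hyperfilter_le_atTop (eventually_ge_atTop j0)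
        have h1 : ∀ᶠ j in (𝒰 : Filter ℕ),
            ∃ a ∈ {a | (D j0 ∩ Vt (t j0) k ∩ V k a).Nonempty}, t j k = a := by
          filter_upwards [ih, hge] with j hj hjj
          refine ⟨t j k, ?_, rfl⟩
          obtain ⟨y, hyD, hy⟩ := ht1 j (k + 1)
          rw [hVts] at hy
          refine ⟨y, ⟨hanti hjj hyD, ?_⟩, hy.2⟩
          rw [hcongr (t j0) (t j) k fun i hi => (hj0 i hi).trans (hj i hi).symm]
          exact hy.1
        rw [Ultrafilter.eventually_exists_mem_iff (ht2 j0 k)] at h1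
        obtain ⟨a, -, ha⟩ := h1
        have h2 := hT k ⟨a, ha⟩
        filter_upwards [ih, h2] with j hj hj' i hi
        rcases Nat.lt_succ_iff_lt_or_eq.1 hi with h | rfl
        · exact hj i h
        · exact hj'
    have hne : ∀ k, (D k ∩ Vt T k).Nonempty := by
      intro k
      have hge : ∀ᶠ j in (𝒰 : Filter ℕ), k ≤ j :=
        Nat.hyperfilter_le_atTop (eventually_ge_atTop k)
      obtain ⟨j, hj, hkj⟩ := ((hmain k).and hge).exists
      obtain ⟨y, hyD, hy⟩ := ht1 j k
      refine ⟨y, hanti hkj hyD, ?_⟩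
      rw [← hcongr (t j) T k hj]
      exact hy
    choose y hyD hyV using hne
    have hsmall : ∀ n, ∃ U ∈ (map y atTop : Filter Y), U ∈ S n := by
      intro n
      refine ⟨N n (T n), ?_, hNS _ _⟩
      rw [mem_map]
      filter_upwards [eventually_ge_atTop (n + 1)] with m hm
      exact hVN _ _ (hyV m n (by omega))
    obtain ⟨z, hz⟩ := hS.cluster (map y atTop) inferInstance hsmall
    refine ⟨z, mem_iInter.2 fun n => hz.mem_closure_of_mem _ ?_⟩
    rw [mem_map]
    filter_upwards [eventually_ge_atTop n] with m hm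
    exact hanti hm (hyD m)

/-- the same for a subspace of the form `N ∩ Z` with `N` open and `Z` closed -/
lemma goodPi_sub {X : Type u} [TopologicalSpace X] [RegularSpace X] (S : ℕ → Set (Set X))
    (hS : Small S) (N Z : Set X) (hN : IsOpen N) (hZ : IsClosed Z) :
    ∃ 𝒟 : Set (Set X), (∀ D ∈ 𝒟, D.Nonempty) ∧
      (∀ O : Set X, IsOpen O → (O ∩ (N ∩ Z)).Nonempty →
        ∃ D, IsOpen D ∧ D ⊆ O ∧ D ∩ (N ∩ Z) ∈ 𝒟) ∧
      ∀ D : ℕ → Set X, (∀ n, D n ∈ 𝒟) → Antitone D → (⋂ n, closure (D n)).Nonempty := by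
  let Y : Type u := (N ∩ Z : Set X)
  let S' : ℕ → Set (Set Y) := fun n => {U | (Subtype.val '' U : Set X) ∈ S n ∧
    closure (Subtype.val '' U : Set X) ⊆ N}
  have hS' : Small S' := by
    refine ⟨?_, ?_, ?_⟩
    · rintro n ⟨y, hyN, hyZ⟩
      obtain ⟨U, hUo, hyU, hU⟩ := hS.nhd n y
      obtain ⟨W, hWmem, hWc, hWN⟩ := exists_mem_nhds_isClosed_subset (hN.mem_nhds hyN)
      refine ⟨Subtype.val ⁻¹' (U ∩ interior W), (hUo.inter isOpen_interior).preimage
        continuous_subtype_val, ⟨hyU, mem_interior_iff_mem_nhds.2 hWmem⟩, ?_, ?_⟩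
      · refine hS.mono n _ U ?_ hU
        rintro _ ⟨z, hz, rfl⟩
        exact subset_closure hz.1
      · refine (closure_minimal ?_ hWc).trans hWN
        rintro _ ⟨z, hz, rfl⟩
        exact interior_subset hz.2
    · rintro n U V hUV ⟨h1, h2⟩
      have h3 : (Subtype.val '' U : Set X) ⊆ closure (Subtype.val '' V) := by
        rintro _ ⟨z, hz, rfl⟩
        exact image_closure_subset_closure_image continuous_subtype_val ⟨z, hUV hz, rfl⟩
      exact ⟨hS.mono n _ _ h3 h1, (closure_minimal h3 isClosed_closure).trans h2⟩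
    · intro F hF hsm
      obtain ⟨z, hz⟩ := hS.cluster (map Subtype.val F) inferInstance (fun n => by
        obtain ⟨U, hU, hUS⟩ := hsm n
        exact ⟨_, image_mem_map hU, hUS.1⟩)
      obtain ⟨U, hU, hUS⟩ := hsm 0
      have hzN : z ∈ N := hUS.2 (hz.mem_closure_of_mem _ (image_mem_map hU))
      have hzZ : z ∈ Z := by
        have : z ∈ closure Z := hz.mem_closure_of_mem _ (by
          rw [mem_map]
          exact Filter.mem_of_superset univ_mem fun w _ => w.2.2)
        rwa [hZ.closure_eq] at this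
      refine ⟨⟨z, hzN, hzZ⟩, ?_⟩
      exact (IsInducing.subtypeVal.mapClusterPt_iff (x := (⟨z, hzN, hzZ⟩ : Y))).1 hz
  obtain ⟨𝒟, h1, h2, h3⟩ := goodPi Y S' hS'
  refine ⟨{E | ∃ D ∈ 𝒟, E = Subtype.val '' D}, ?_, ?_, ?_⟩
  · rintro _ ⟨D, hD, rfl⟩
    exact (h1 D hD).image _
  · intro O hO hne
    obtain ⟨D, hD, hDO, hDo⟩ := h2 (Subtype.val ⁻¹' O) (hO.preimage continuous_subtype_val) (by
      obtain ⟨y, hy, hy'⟩ := hne
      exact ⟨⟨y, hy'⟩, hy⟩)
    obtain ⟨E, hE, hED⟩ := isOpen_induced_iff.1 hDo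
    refine ⟨E ∩ O, hE.inter hO, inter_subset_right, D, hD, ?_⟩
    ext y
    constructor
    · rintro ⟨⟨hyE, hyO⟩, hy⟩
      refine ⟨⟨y, hy⟩, ?_, rfl⟩
      rw [← hED]
      exact hyE
    · rintro ⟨z, hz, rfl⟩
      refine ⟨⟨?_, hDO hz⟩, z.2⟩
      rw [← hED] at hz
      exact hz
  · intro D hD hanti
    choose E hE hDE using hD
    obtain ⟨z, hz⟩ := h3 E hE (by
      intro i j hij y hy
      have h4 : (y : X) ∈ D j := by
        rw [hDE j]
        exact ⟨y, hy, rfl⟩
      have h5 := hanti hij h4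
      rw [hDE i] at h5
      obtain ⟨w, hw, hwy⟩ := h5
      rwa [← Subtype.ext hwy])
    refine ⟨z, mem_iInter.2 fun n => ?_⟩
    rw [hDE n]
    exact image_closure_subset_closure_image continuous_subtype_val ⟨z, mem_iInter.1 hz n, rfl⟩

/-- a sequence in a well-order with `a (j + 1) ≤ a j` is eventually constant -/
lemma eventually_const {Y : Type u} [LinearOrder Y] [WellFoundedLT Y] (a : ℕ → Y) (j0 : ℕ)
    (ha : ∀ j, j0 ≤ j → a (j + 1) ≤ a j) : ∃ j1, j0 ≤ j1 ∧ ∀ j, j1 ≤ j → a j = a j1 := by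
  obtain ⟨j1, hj1, hmin⟩ := exists_min a (Ici j0) ⟨j0, mem_Ici.2 le_rfl⟩
  refine ⟨j1, hj1, fun j hj => le_antisymm ?_ (hmin j (le_trans hj1 hj))⟩
  induction j, hj using Nat.le_induction with
  | base => exact le_rfl
  | succ j hj ih => exact (ha j (le_trans hj1 hj)).trans ih

lemma main (X : Type u) [TopologicalSpace X] [RegularSpace X] (S : ℕ → Set (Set X))
    (hS : Small S) : StronglyTelgarsky X := by
  classical
  obtain ⟨_, _⟩ := exists_wellFoundedLT X
  choose N hNo hNmem hNS using hS.nhd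
  let α : ℕ → X → X := fun n => al (N n) (hNmem n)
  let Z : ℕ → X → Set X := fun n a => (⋃ b ∈ {b | b < a}, N n b)ᶜ
  have hZ : ∀ n a, IsClosed (Z n a) := fun n a => by
    rw [isClosed_compl_iff]
    exact isOpen_biUnion fun b _ => hNo n b
  have hPα : ∀ n a y, y ∈ N n a ∩ Z n a ↔ α n y = a := by
    intro n a y
    constructor
    · rintro ⟨h1, h2⟩
      refine le_antisymm (al_le _ _ _ _ h1) (not_lt.1 fun hlt => h2 ?_)
      exact mem_iUnion₂.2 ⟨_, hlt, al_mem _ _ _⟩
    · rintro rfl
      refine ⟨al_mem _ _ _, fun h => ?_⟩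
      obtain ⟨b, hb, hyb⟩ := mem_iUnion₂.1 h
      exact absurd (al_le _ _ _ _ hyb) (not_le.2 hb)
  have hpi := fun n a => goodPi_sub S hS (N n a) (Z n a) (hNo n a) (hZ n a)
  choose 𝒟 h𝒟1 h𝒟2 h𝒟3 using hpi
  -- the witnesses for the second part of the base
  let W : Set X → ℕ → Set X → Set X → X → X → Prop := fun B n C D x c =>
    IsOpen C ∧ IsOpen D ∧ B = C ∪ D ∧ (∀ m < n, B ∈ S m) ∧ x ∈ C ∧ C ⊆ N n (α n x) ∧
    D ⊆ N n c ∧ c ≠ α n x ∧ Disjoint D (N n (α n x)) ∧ D ∩ (N n c ∩ Z n c) ∈ 𝒟 n c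
  let ℬ : Set (Set X) := {B | IsOpen B ∧ B.Nonempty ∧ ((∀ n, B ∈ S n) ∨
    ∃ n C D x c, W B n C D x c)}
  refine ⟨ℬ, ?_, fun B hB => ⟨hB.1, hB.2.1⟩, ?_⟩
  · refine isTopologicalBasis_of_isOpen_of_nhds (fun B hB => hB.1) fun x O hx hO => ?_
    by_cases hOS : ∀ n, O ∈ S n
    · exact ⟨O, ⟨hO, ⟨x, hx⟩, Or.inl hOS⟩, hx, Subset.rfl⟩
    · push Not at hOS
      obtain ⟨n, hn, hmin⟩ : ∃ n, O ∉ S n ∧ ∀ m < n, O ∈ S m := by
        refine ⟨Nat.find hOS, Nat.find_spec hOS, fun m hm => ?_⟩
        have := Nat.find_min hOS hm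
        push Not at this
        exact this
      have hx' : ∃ x', x' ∈ O ∧ x' ∉ closure (N n (α n x)) := by
        by_contra hcon
        push Not at hcon
        exact hn (hS.mono n O _ hcon (hNS n _))
      obtain ⟨x', hx'O, hx'N⟩ := hx'
      obtain ⟨D, hDo, hDsub, hD𝒟⟩ := h𝒟2 n (α n x') ((O \ closure (N n (α n x))) ∩ N n (α n x'))
        ((hO.sdiff isClosed_closure).inter (hNo _ _))
        ⟨x', ⟨⟨hx'O, hx'N⟩, al_mem _ _ _⟩, (hPα _ _ _).2 rfl⟩
      have hCo : IsOpen (O ∩ N n (α n x)) := hO.inter (hNo _ _)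
      have hsub : (O ∩ N n (α n x)) ∪ D ⊆ O :=
        union_subset inter_subset_left (fun y hy => (hDsub hy).1.1)
      refine ⟨(O ∩ N n (α n x)) ∪ D, ⟨hCo.union hDo, ⟨x, Or.inl ⟨hx, al_mem _ _ _⟩⟩, Or.inr
        ⟨n, O ∩ N n (α n x), D, x, α n x', hCo, hDo, rfl, ?_, ⟨hx, al_mem _ _ _⟩,
        inter_subset_right, ?_, ?_, ?_, hD𝒟⟩⟩, Or.inl ⟨hx, al_mem _ _ _⟩, hsub⟩
      · intro m hm
        exact hS.mono m _ O (hsub.trans subset_closure) (hmin m hm)
      · intro y hy
        exact (hDsub hy).2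
      · intro h
        apply hx'N
        rw [← h]
        exact subset_closure (al_mem _ _ _)
      · rw [Set.disjoint_left]
        intro y hy hyN
        exact (hDsub hy).1.2 (subset_closure hyN)
  · intro B hB hnest
    have hstep : ∀ n, B (n + 1) ⊆ B n := fun n =>
      subset_closure.trans ((hnest n).trans interior_subset)
    have hanti : Antitone B := antitone_nat_of_succ_le hstep
    have hcl : ∀ z, z ∈ ⋂ n, closure (B n) → z ∈ ⋂ n, B n := fun z hz =>
      mem_iInter.2 fun n => interior_subset (hnest n (mem_iInter.1 hz (n + 1)))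
    by_cases hlev : ∀ m, ∃ j, B j ∈ S m
    · choose y hy using fun j => (hB j).2.1
      obtain ⟨z, hz⟩ := hS.cluster (map y atTop) inferInstance (fun m => by
        obtain ⟨j, hj⟩ := hlev m
        refine ⟨B j, ?_, hj⟩
        rw [mem_map]
        filter_upwards [eventually_ge_atTop j] with i hi
        exact hanti hi (hy i))
      refine ⟨z, hcl z (mem_iInter.2 fun n => hz.mem_closure_of_mem _ ?_)⟩
      rw [mem_map]
      filter_upwards [eventually_ge_atTop n] with i hi
      exact hanti hi (hy i)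
    · push Not at hlev
      obtain ⟨m, hm⟩ := hlev
      have hW : ∀ j, ∃ n C D x c, W (B j) n C D x c := fun j => by
        rcases (hB j).2.2 with h | h
        · exact (hm j (h m)).elim
        · exact h
      choose n C D x c hW using hW
      have hnm : ∀ j, n j ≤ m := fun j => by
        by_contra hcon
        exact hm j ((hW j).2.2.2.1 m (not_le.1 hcon))
      -- a subsequence on which `n j` and the order between the two indices are constant
      obtain ⟨n0, b, φ, hφ, hφn, hφb⟩ : ∃ (n0 : ℕ) (b : Prop) (φ : ℕ → ℕ), StrictMono φ ∧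
          (∀ j, n (φ j) = n0) ∧ ∀ j, (c (φ j) < α (n (φ j)) (x (φ j)) ↔ b) := by
        let g : ℕ → Fin (m + 1) × Prop := fun j =>
          (⟨n j, Nat.lt_succ_of_le (hnm j)⟩, c j < α (n j) (x j))
        obtain ⟨⟨n0, b⟩, hinf⟩ := Finite.exists_infinite_fiber g
        have hinf' : (g ⁻¹' {(n0, b)}).Infinite := Set.infinite_coe_iff.1 hinf
        obtain ⟨φ, hφ, hφ'⟩ := extraction_of_frequently_atTop
          (Nat.frequently_atTop_iff_infinite.2 hinf')
        refine ⟨n0, b, φ, hφ, fun j => ?_, fun j => ?_⟩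
        · have h1 : g (φ j) = (n0, b) := hφ' j
          have h2 := congrArg (fun p => (p.1 : ℕ)) h1
          exact h2
        · have h1 : g (φ j) = (n0, b) := hφ' j
          have h2 := congrArg (fun p => p.2) h1
          exact iff_of_eq h2
      -- pass to the subsequence
      let B' : ℕ → Set X := fun j => B (φ j)
      let a' : ℕ → X := fun j => α n0 (x (φ j))
      let c' : ℕ → X := fun j => c (φ j)
      let C' : ℕ → Set X := fun j => C (φ j)
      let D' : ℕ → Set X := fun j => D (φ j)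
      have hW' : ∀ j, B' j = C' j ∪ D' j ∧ x (φ j) ∈ C' j ∧ C' j ⊆ N n0 (a' j) ∧
          D' j ⊆ N n0 (c' j) ∧ c' j ≠ a' j ∧ Disjoint (D' j) (N n0 (a' j)) ∧
          D' j ∩ (N n0 (c' j) ∩ Z n0 (c' j)) ∈ 𝒟 n0 (c' j) := by
        intro j
        obtain ⟨-, -, h1, -, h2, h3, h4, h5, h6, h7⟩ := hW (φ j)
        rw [hφn j] at h3 h4 h5 h6 h7
        exact ⟨h1, h2, h3, h4, h5, h6, h7⟩
      have hanti' : Antitone B' := fun i j hij => hanti (hφ.monotone hij)
      have hcl' : ∀ (j0 : ℕ) (z : X), (∀ j, j0 ≤ j → z ∈ closure (B' j)) → z ∈ ⋂ n, B n := by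
        intro j0 z hz
        refine hcl z (mem_iInter.2 fun k => ?_)
        have h1 := hz (max j0 k) (le_max_left _ _)
        refine closure_mono ?_ h1
        exact hanti ((le_max_right j0 k).trans (hφ.le_apply))
      have hαle : ∀ j y, y ∈ B' j → α n0 y ≤ a' j ∨ α n0 y ≤ c' j := by
        intro j y hy
        rw [(hW' j).1] at hy
        rcases hy with hy | hy
        · exact Or.inl (al_le _ _ _ _ ((hW' j).2.2.1 hy))
        · exact Or.inr (al_le _ _ _ _ ((hW' j).2.2.2.1 hy))
      -- points with minimal index `c' j`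
      have hcpt : ∀ j, ∃ y ∈ D' j, α n0 y = c' j := by
        intro j
        obtain ⟨y, hy, hy'⟩ := h𝒟1 _ _ _ (hW' j).2.2.2.2.2.2
        exact ⟨y, hy, (hPα _ _ _).1 hy'⟩
      by_cases hb : b
      · -- the case `c' j < a' j`
        have hlt : ∀ j, c' j < a' j := fun j => by
          have := (hφb j).2 hb
          rw [hφn j] at this
          exact this
        have ha : ∀ j, 0 ≤ j → a' (j + 1) ≤ a' j := by
          intro j _
          have h1 : x (φ (j + 1)) ∈ B' j := hanti' (Nat.le_succ j) (by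
            rw [(hW' (j + 1)).1]
            exact Or.inl (hW' (j + 1)).2.1)
          rcases hαle j _ h1 with h | h
          · exact h
          · exact h.trans (hlt j).le
        obtain ⟨j0, -, hj0⟩ := eventually_const a' 0 ha
        have hDanti : ∀ j, j0 ≤ j → D' (j + 1) ⊆ D' j := by
          intro j hj y hy
          have h1 : y ∈ B' j := hanti' (Nat.le_succ j) (by
            rw [(hW' (j + 1)).1]
            exact Or.inr hy)
          rw [(hW' j).1] at h1
          rcases h1 with h1 | h1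
          · exfalso
            have h2 := (hW' j).2.2.1 h1
            rw [hj0 j hj, ← hj0 (j + 1) (by omega)] at h2
            exact (Set.disjoint_left.1 (hW' (j + 1)).2.2.2.2.2.1) hy h2
          · exact h1
        have hc : ∀ j, j0 ≤ j → c' (j + 1) ≤ c' j := by
          intro j hj
          obtain ⟨y, hy, hy'⟩ := hcpt (j + 1)
          rw [← hy']
          exact al_le _ _ _ _ ((hW' j).2.2.2.1 (hDanti j hj hy))
        obtain ⟨j1, hj01, hj1⟩ := eventually_const c' j0 hc
        obtain ⟨z, hz⟩ := h𝒟3 n0 (c' j1)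
          (fun i => D' (j1 + i) ∩ (N n0 (c' j1) ∩ Z n0 (c' j1)))
          (fun i => by
            have h1 := (hW' (j1 + i)).2.2.2.2.2.2
            rwa [hj1 (j1 + i) (by omega)] at h1)
          (antitone_nat_of_succ_le fun i => inter_subset_inter_left _
            (hDanti (j1 + i) (by omega)))
        refine ⟨z, hcl' j1 z fun j hj => ?_⟩
        have h1 := mem_iInter.1 hz (j - j1)
        refine closure_mono ?_ h1
        rw [show j1 + (j - j1) = j by omega, (hW' j).1]
        exact inter_subset_left.trans subset_union_right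
      · -- the case `a' j < c' j`
        have hlt : ∀ j, a' j < c' j := fun j => by
          have h1 : ¬ c' j < a' j := fun h => by
            refine hb ((hφb j).1 ?_)
            rw [hφn j]
            exact h
          exact lt_of_le_of_ne (not_lt.1 h1) (hW' j).2.2.2.2.1.symm
        have hc : ∀ j, 0 ≤ j → c' (j + 1) ≤ c' j := by
          intro j _
          obtain ⟨y, hy, hy'⟩ := hcpt (j + 1)
          rw [← hy']
          have h1 : y ∈ B' j := hanti' (Nat.le_succ j) (by
            rw [(hW' (j + 1)).1]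
            exact Or.inr hy)
          rcases hαle j _ h1 with h | h
          · exact h.trans (hlt j).le
          · exact h
        obtain ⟨j1, -, hj1⟩ := eventually_const c' 0 hc
        have hBD : ∀ j, j1 ≤ j → B' j ∩ (N n0 (c' j1) ∩ Z n0 (c' j1)) ∈ 𝒟 n0 (c' j1) := by
          intro j hj
          have h1 := (hW' j).2.2.2.2.2.2
          rw [hj1 j hj] at h1
          have h2 : B' j ∩ (N n0 (c' j1) ∩ Z n0 (c' j1)) =
              D' j ∩ (N n0 (c' j1) ∩ Z n0 (c' j1)) := by
            rw [(hW' j).1, union_inter_distrib_right]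
            have h3 : C' j ∩ (N n0 (c' j1) ∩ Z n0 (c' j1)) = ∅ := by
              rw [eq_empty_iff_forall_notMem]
              rintro y ⟨hyC, hy⟩
              have h4 := (hPα _ _ _).1 hy
              have h5 : α n0 y ≤ a' j := al_le _ _ _ _ ((hW' j).2.2.1 hyC)
              rw [h4, ← hj1 j hj] at h5
              exact absurd (hlt j) (not_lt.2 h5)
            rw [h3, empty_union]
          rwa [h2]
        obtain ⟨z, hz⟩ := h𝒟3 n0 (c' j1)
          (fun i => B' (j1 + i) ∩ (N n0 (c' j1) ∩ Z n0 (c' j1)))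
          (fun i => hBD _ (by omega))
          (antitone_nat_of_succ_le fun i => inter_subset_inter_left _ (hanti' (by omega)))
        refine ⟨z, hcl' j1 z fun j hj => ?_⟩
        have h1 := mem_iInter.1 hz (j - j1)
        refine closure_mono ?_ h1
        rw [show j1 + (j - j1) = j by omega]
        exact inter_subset_left

/-- Every Čech-complete space (a Tychonoff space which is a `G_δ` subset of its Stone–Čech
compactification) is strongly Telgársky pseudocomplete. -/
theorem result (X : Type u) [TopologicalSpace X] [T35Space X]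
    (hX : IsGδ (range (stoneCechUnit : X → StoneCech X))) : StronglyTelgarsky X := by
  obtain ⟨G, hGo, hG⟩ := isGδ_iff_eq_iInter_nat.1 hX
  refine main X (fun n => {V | closure (stoneCechUnit '' V) ⊆ G n}) ⟨?_, ?_, ?_⟩
  · intro n y
    have hy : (stoneCechUnit y : StoneCech X) ∈ G n := by
      have : (stoneCechUnit y : StoneCech X) ∈ ⋂ n, G n := by
        rw [← hG]
        exact mem_range_self y
      exact mem_iInter.1 this n
    obtain ⟨W, hWmem, hWc, hWG⟩ := exists_mem_nhds_isClosed_subset ((hGo n).mem_nhds hy)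
    refine ⟨stoneCechUnit ⁻¹' interior W, isOpen_interior.preimage continuous_stoneCechUnit,
      mem_interior_iff_mem_nhds.2 hWmem, (closure_minimal ?_ hWc).trans hWG⟩
    rintro _ ⟨z, hz, rfl⟩
    exact interior_subset hz
  · intro n U V hUV hV
    refine (closure_minimal ?_ isClosed_closure).trans hV
    rintro _ ⟨z, hz, rfl⟩
    exact image_closure_subset_closure_image continuous_stoneCechUnit ⟨z, hUV hz, rfl⟩
  · intro F hF hsm
    obtain ⟨z, hz⟩ := exists_clusterPt_of_compactSpace (map (stoneCechUnit : X → StoneCech X) F)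
    have hzG : z ∈ ⋂ n, G n := by
      refine mem_iInter.2 fun n => ?_
      obtain ⟨U, hU, hUS⟩ := hsm n
      exact hUS (hz.mem_closure_of_mem _ (image_mem_map hU))
    rw [← hG] at hzG
    obtain ⟨y, rfl⟩ := hzG
    exact ⟨y, isEmbedding_stoneCechUnit.isInducing.mapClusterPt_iff.1 hz⟩

end Pool.Agent.Results.MP_e752eb_gt.CechStrong
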